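import Pool.Agent.MWC.StmtsB
import Pool.Agent.Helper65_MWC.Checks

/-!
# Row CAA of block MWC: the first two clauses of (a)
-/

namespace Pool.Agent.MWC.H37

open Pool.Agent.Helper14_MV Pool.Agent.Helper2_MV Pool.Agent.MVO Pool.Agent.MWL Pool.Agent.MWA
open Pool.Agent.MWC

set_option maxRecDepth 10000

theorem caa (h1 : ArbStmt) (h2 : TycStmt) (h3 : BtlStmt) (h4 : MstStmt) : CaaStmt := by
  intro n β hβ
  have iso := hβ.iso
  have cl := hβ.cl
  have lr := hβ.lr
  obtain ⟨aEF, _, aGD, _, _, aJ2⟩ := h1 false n β lr
  have nJ2 : ¬ HB false n β (Bit.J 2) := aJ2 iso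
  obtain ⟨B1, B2, B3⟩ := h3 false n β iso cl lr
  have T := h2 false n β iso cl lr
  constructor
  · by_contra hcon
    push Not at hcon
    obtain ⟨hG, hB⟩ := hcon
    have nE : ¬ HB false n β Bit.E := by
      intro hE
      have t1 := T 1 1 1 [2, 0] [2, 2] [1, 1] (le_refl _) (le_refl _) (by decide +kernel)
        (by decide +kernel) (by
          have e : tab false 1 [2, 0] 1 = [Bit.E] := by decide +kernel
          rw [e]
          intro κ hκ
          rw [List.mem_singleton] at hκ
          subst hκ
          exact hE) (by decide +kernel)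
      have t2 := B1 1 1 [2, 0] [1, 1] (le_refl _) (by decide +kernel) (by decide +kernel)
        (by decide +kernel)
      exact hB (B3 1 1 _ _ (t1.1 t2))
    refine h4 false n β hβ 1 1 _ _ _ _ _ _ _ _ _ _ _ H65.cA1 ?_ ?_ ?_
    · intro μ hμ
      exact absurd hμ (by simp)
    · intro μ hμ
      simp only [List.mem_cons, List.not_mem_nil, or_false] at hμ
      rcases hμ with rfl | rfl | rfl
      · exact hG
      · exact nJ2
      · exact nE
    · intro q hq
      rw [List.mem_singleton] at hq
      subst hq
      exact hB
  · intro hyp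
    by_contra hcon
    push Not at hcon
    obtain ⟨hD, hB⟩ := hcon
    have nF : ¬ HB false n β Bit.F := by
      intro hF
      have t1 := T 2 2 1 [2, 0, 2] [2, 2, 2] [0, 1, 1] (le_refl _) (by decide) (by decide +kernel)
        (by decide +kernel) (by
          have e : tab false 2 [2, 0, 2] 1 = [Bit.F] := by decide +kernel
          rw [e]
          intro κ hκ
          rw [List.mem_singleton] at hκ
          subst hκ
          exact hF) (by decide +kernel)
      have t2 := B2 1 2 1 2 [1, 1] [2, 2] [0, 1, 1] [2, 2, 2] [1, 2] (by decide +kernel)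
        (le_refl _) (by decide +kernel) (by decide +kernel) (by decide +kernel)
        (by decide +kernel) (by decide +kernel) (by decide +kernel) (by decide +kernel) hyp
      exact hB (B3 2 2 _ _ (t1.2 (B3 2 2 _ _ t2)))
    refine h4 false n β hβ 2 2 _ _ _ _ _ _ _ _ _ _ _ H65.cA2 ?_ ?_ ?_
    · intro μ hμ
      exact absurd hμ (by simp)
    · intro μ hμ
      simp only [List.mem_cons, List.not_mem_nil, or_false] at hμ
      rcases hμ with rfl | rfl | rfl | rfl | rfl
      · exact hD
      · exact fun h => hD (aGD h)
      · exact nJ2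
      · exact fun h => nF (aEF h)
      · exact nF
    · intro q hq
      rw [List.mem_singleton] at hq
      subst hq
      exact hB

end Pool.Agent.MWC.H37
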