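import Pool.Agent.MWC.Stmts

/-!
# Row BMN of block MWC: monotony of the exchanges, in terms of shapes
-/

namespace Pool.Agent.MWC.H37

open Pool.Agent.Helper14_MV Pool.Agent.Helper2_MV Pool.Agent.MVO Pool.Agent.MWL
open Pool.Agent.MWC

theorem deg_psh' {k k' : ℕ} {f : ℕ → ℕ} (hf : ∀ i ≤ k, f i ≤ k') (a : ℕ → ℕ) :
    deg k' (psh k f a) = deg k a := by
  unfold deg psh
  rw [Finset.sum_comm]
  apply Finset.sum_congr rfl
  intro i hi
  rw [Finset.mem_range] at hi
  rw [Finset.sum_ite_eq, if_pos]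
  rw [Finset.mem_range]
  have := hf i (by omega)
  omega

theorem psh_pos {k : ℕ} {f a : ℕ → ℕ} {i : ℕ} (hi : i ≤ k) (ha : a i ≠ 0) :
    psh k f a (f i) ≠ 0 := by
  intro h
  unfold psh at h
  rw [Finset.sum_eq_zero_iff] at h
  have h1 := h i (Finset.mem_range.2 (by omega))
  rw [if_pos rfl] at h1
  exact ha h1

theorem psh_zero {k : ℕ} {f a : ℕ → ℕ} {j : ℕ} (h : ∀ i ≤ k, f i = j → a i = 0) :
    psh k f a j = 0 := by
  unfold psh
  apply Finset.sum_eq_zero
  intro i hi
  rw [Finset.mem_range] at hi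
  by_cases hf : f i = j
  · rw [if_pos hf]
    exact h i (by omega) hf
  · rw [if_neg hf]

/-- the vector which is added -/
def ee (n : ℕ) (x : List ℕ) (c : ℕ → ℕ) : ℕ → ℕ := fun j =>
  if rep x j = 0 then 0 else if rep x j = 1 then 1 - c j else rep x j + (n - 1) * c j

theorem pos_of_LRr {r : Bool} {n : ℕ} {R : FC} (h : LRr r n R) : 1 ≤ n := by
  unfold LRr at h
  cases r
  · rw [if_neg (by simp)] at h
    exact h.pos
  · rw [if_pos rfl] at h
    exact h.pos

theorem les_le {k : ℕ} {s t : List ℕ} (h : les k s t = true) : ∀ j ≤ k, rep s j ≤ rep t j := by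
  intro j hj
  unfold les at h
  rw [List.all_eq_true] at h
  exact Nat.le_of_ble_eq_true (h j (List.mem_range.2 (by omega)))

theorem bmn (h1 : MVO.FaaStmt) (h2 : KyrStmt) (h3 : ShfStmt) : BmnStmt := by
  intro r n β iso cl lr k k1 i i1 c d f x y hc hd hi hci hdi hf hfi hx hy hB
  have hn := pos_of_LRr lr
  obtain ⟨F0, F2, F3, F4, F5, F6⟩ := h1 β cl
  have hK := (h2 r n β iso lr).2
  have hfk : ∀ i ≤ k, f i ≤ k1 := hf.le
  have hi1 : i1 ≤ k1 := by rw [← hfi]; exact hf.le i hi
  -- the last blocks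
  have hlast : ∀ a : ℕ → ℕ, (sp k a).max = (i : WithBot ℕ) →
      (sp k1 (psh k f a)).max = (i1 : WithBot ℕ) := by
    intro a ha
    obtain ⟨-, -, -, -, -, -, -, h8⟩ := h3 r k a
    obtain ⟨-, -, -, -, -, -, -, h9⟩ := h3 r k1 (psh k f a)
    obtain ⟨ha1, ha2⟩ := (h8 i hi).1 ha
    rw [h9 i1 hi1]
    constructor
    · rw [← hfi]
      exact psh_pos hi ha1
    · intro j _ hj
      apply psh_zero
      intro p hp hfp
      apply ha2 p hp
      by_contra hcon
      have := hf.mono p i (by omega) hi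
      omega
  -- the sums are related to the shapes
  have hsum : ∀ (a : ℕ → ℕ) (z : List ℕ), les k1 (shp r k1 a) z = true →
      L1 β k1 (fun j => a j + ee n z a j) (rep z) := by
    intro a z hz
    apply hK
    intro j hj
    obtain ⟨⟨-, hsh⟩, -⟩ := h3 r k1 a
    obtain ⟨s1, s2, s3, s4⟩ := hsh j hj
    have hle := les_le hz j hj
    show a j + ee n z a j = rep z j ∨ (2 ≤ a j + ee n z a j ∧ 2 ≤ rep z j ∧
      a j + ee n z a j ≡ rep z j [MOD n])
    unfold ee
    by_cases h0 : rep z j = 0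
    · left
      rw [if_pos h0, h0]
      have : rep (shp r k1 a) j = 0 := by omega
      have := s1.1 this
      omega
    · rw [if_neg h0]
      by_cases h01 : rep z j = 1
      · left
        rw [if_pos h01, h01]
        have : a j ≤ 1 := by
          by_contra hcon
          have := s4 (by omega)
          omega
        omega
      · right
        rw [if_neg h01]
        have e : a j + (rep z j + (n - 1) * a j) = rep z j + n * a j := by
          obtain ⟨m, rfl⟩ := Nat.exists_eq_add_of_le hn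
          rw [Nat.add_sub_cancel_left]
          ring
        rw [e]
        refine ⟨by omega, by omega, ?_⟩
        unfold Nat.ModEq
        rw [Nat.add_mul_mod_self_left]
  have hc1 : 2 ≤ deg k1 (psh k f c) := by rw [deg_psh' hfk]; exact hc
  have hd1 : 2 ≤ deg k1 (psh k f d) := by rw [deg_psh' hfk]; exact hd
  have b1 : Bt β k1 (psh k f c) (psh k f d) i1 := by
    rw [← hfi]
    exact F4 k k1 f c d i hf hc hd hi hci hdi hB
  have b2 := F3 k1 (psh k f c) (psh k f d) (ee n x (psh k f c)) (ee n y (psh k f d)) i1 hc1 hd1 hi1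
    (hlast c hci) (hlast d hdi) b1
  have b3 := F2 k1 (rep x) _ _ i1 (hsum _ x hx).symm b2
  have b4 := F5 k1 _ _ i1 b3
  have b5 := F2 k1 (rep y) _ _ i1 (hsum _ y hy).symm b4
  exact F5 k1 _ _ i1 b5

end Pool.Agent.MWC.H37
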